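import Pool.Agent.W560.HP.Stm

/-!
# HP-DIFF
-/

set_option autoImplicit false

namespace Pool.Agent.W290.HP

open Finset Polynomial W560.HP

/-- `p'` is the coefficientwise derivative of `p` -/
def IsD {k E : Type} [Field k] [Field E] [Algebra k E] (D : Derivation k E E) (p p' : E[X]) :
    Prop := ∀ l, D (p.coeff l) = p'.coeff l

section
variable {k E : Type} [Field k] [Field E] [Algebra k E] {D : Derivation k E E}

lemma IsD.mul {p p' q q' : E[X]} (hp : IsD D p p') (hq : IsD D q q') :
    IsD D (p * q) (p' * q + p * q') := by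
  intro l
  rw [coeff_mul, map_sum, coeff_add, coeff_mul, coeff_mul, ← sum_add_distrib]
  refine sum_congr rfl fun x _ => ?_
  rw [Derivation.leibniz, hp, hq, smul_eq_mul, smul_eq_mul]
  ring

lemma IsD.pow {p p' : E[X]} (hp : IsD D p p') (n : ℕ) :
    IsD D (p ^ n) (C (n : E) * p ^ (n - 1) * p') := by
  induction n with
  | zero =>
    intro l
    simp only [pow_zero, Nat.cast_zero, map_zero, zero_mul, coeff_zero, coeff_one]
    split_ifs <;> simp
  | succ n ih =>
    have h1 := ih.mul hp
    rw [← pow_succ] at h1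
    have e : C (n : E) * p ^ (n - 1) * p' * p + p ^ n * p'
        = C (((n + 1 : ℕ) : E)) * p ^ (n + 1 - 1) * p' := by
      rcases Nat.eq_zero_or_pos n with h | h
      · subst h; simp
      · obtain ⟨n', rfl⟩ : ∃ n', n = n' + 1 := ⟨n - 1, by omega⟩
        simp only [Nat.add_sub_cancel, Nat.cast_add, Nat.cast_one, map_add, map_one]
        ring
    rw [e] at h1
    exact h1

lemma isD_X_add_C (a : E) : IsD D (X + C a) (C (D a)) := by
  intro l
  rw [coeff_add, map_add, coeff_X, coeff_C, coeff_C]
  have h1 : D (if 1 = l then (1 : E) else 0) = 0 := by split_ifs <;> simp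
  have h2 : D (if l = 0 then a else 0) = if l = 0 then D a else 0 := by split_ifs <;> simp
  rw [h1, h2, zero_add]

end

theorem diff : S_DIFF := by
  intro k E _ _ _ m σ r τ D hm hinj hL hD l hl
  -- large range
  obtain ⟨N, hN⟩ : ∃ N : ℕ, ∀ i ≤ m, σ i < N := by
    refine ⟨(range (m + 1)).sup σ + 1, fun i hi => ?_⟩
    exact Nat.lt_succ_of_le (le_sup (f := σ) (mem_range.mpr (by omega)))
  have key : ∀ F : ℕ → E, (∀ j, (∀ i ≤ m, σ i ≠ j) → F j = 0) →
      ∑ i ∈ range (m + 1), F (σ i) = ∑ j ∈ range (N + 1), F j := by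
    intro F hF
    have h1 : ∑ i ∈ range (m + 1), F (σ i) = ∑ j ∈ (range (m + 1)).image σ, F j := by
      rw [sum_image]
      intro a ha b hb hab
      simp only [coe_range, Set.mem_Iio] at ha hb
      exact hinj a (by omega) b (by omega) hab
    rw [h1]
    apply sum_subset
    · intro j hj
      obtain ⟨i, hi, rfl⟩ := mem_image.mp hj
      have := hN i (by rw [mem_range] at hi; omega)
      rw [mem_range]; omega
    · intro j _ hj
      apply hF
      intro i hi hij
      exact hj (mem_image.mpr ⟨i, mem_range.mpr (by omega), hij⟩)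
  set a : ℕ → E := fun j => (C (m : E) * (X + C (r j)) ^ (m - 1) * (X + C (r (j + 1)))).coeff l
    with ha
  set b : ℕ → E := fun j => ((X + C (r j)) ^ m).coeff l with hb
  have hg : ∀ j, D ((g m r j).coeff l) = a j * D (r j) + b j * D (r (j + 1)) := by
    intro j
    have h1 := ((isD_X_add_C (D := D) (r j)).pow m).mul (isD_X_add_C (D := D) (r (j + 1))) l
    unfold g
    rw [h1, coeff_add]
    rw [show C (m : E) * (X + C (r j)) ^ (m - 1) * C (D (r j)) * (X + C (r (j + 1)))
      = (C (m : E) * (X + C (r j)) ^ (m - 1) * (X + C (r (j + 1)))) * C (D (r j)) by ring]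
    rw [coeff_mul_C, coeff_mul_C]
  have h1 := congrArg D (hL.p1 l hl)
  rw [map_zero, map_sum] at h1
  have h2 : ∑ i ∈ range (m + 1),
      (fun j => τ j * (a j * D (r j) + b j * D (r (j + 1)))) (σ i) = 0 := by
    rw [← h1]
    refine sum_congr rfl fun i hi => ?_
    rw [mem_range] at hi
    rw [Derivation.leibniz, hD i (by omega), smul_zero, zero_add, smul_eq_mul, hg]
  have h2' := (key (fun j => τ j * (a j * D (r j) + b j * D (r (j + 1))))
    (fun j hj => by simp only [hL.t0 j hj, zero_mul])).symm.trans h2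
  have h3 : ∀ j, (h m r τ j).coeff l = τ j * a j + if j = 0 then 0 else τ (j - 1) * b (j - 1) := by
    intro j
    unfold h
    rw [coeff_add]
    congr 1
    · rw [ha, show C ((m : E) * τ j) * (X + C (r j)) ^ (m - 1) * (X + C (r (j + 1)))
        = C (τ j) * (C (m : E) * (X + C (r j)) ^ (m - 1) * (X + C (r (j + 1)))) by
          rw [C_mul]; ring, coeff_C_mul]
    · split_ifs
      · simp
      · rw [coeff_C_mul]
  have h4 := key (fun j => (h m r τ j).coeff l * D (r j)) (fun j hj => by
    simp only [hL.r0 j hj, map_zero, mul_zero])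
  refine h4.trans ?_
  have hc : τ N = 0 := hL.t0 N (fun i hi => (hN i hi).ne)
  have h5 : ∑ j ∈ range (N + 1), (if j = 0 then 0 else τ (j - 1) * b (j - 1)) * D (r j)
      = ∑ j ∈ range (N + 1), τ j * (b j * D (r (j + 1))) := by
    rw [sum_range_succ', sum_range_succ]
    simp only [if_true, zero_mul, add_zero, hc, Nat.add_sub_cancel, Nat.succ_ne_zero, if_false,
      mul_assoc]
  calc ∑ j ∈ range (N + 1), (h m r τ j).coeff l * D (r j)
      = ∑ j ∈ range (N + 1), τ j * (a j * D (r j))
        + ∑ j ∈ range (N + 1), (if j = 0 then 0 else τ (j - 1) * b (j - 1)) * D (r j) := by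
        rw [← sum_add_distrib]
        refine sum_congr rfl fun j _ => ?_
        rw [h3]; ring
    _ = ∑ j ∈ range (N + 1), τ j * (a j * D (r j) + b j * D (r (j + 1))) := by
        rw [h5, ← sum_add_distrib]
        refine sum_congr rfl fun j _ => ?_
        ring
    _ = 0 := h2'

end Pool.Agent.W290.HP
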