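import Pool.Agent.W463.H10.Nexp
import Pool.Agent.W290.LG.All
import Pool.Agent.W303.LG.G

/-!
# Failures of the Hasse principle for quartic polynomials: complexity
-/

set_option autoImplicit false

namespace Pool.Agent.W290.HP

open Pool.Agent Pool.Agent.NPC Pool.Agent.H528R2 Pool.Agent.W463.H10 Pool.Agent.W290.LG

/-- The value at `x` of the polynomial with the list of terms `p`: the pair `(c, [i₁, …, i_k])`
stands for the term `c * x i₁ * ⋯ * x i_k`. -/
def valueK {K : Type} [Field K] (x : ℕ → K) (p : List (ℤ × List ℕ)) : K :=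
  (p.map fun t => (t.1 : K) * (t.2.map x).prod).sum

/-- The polynomial `p` has a zero with coordinates in `K`. -/
def ZeroIn (K : Type) [Field K] (p : List (ℤ × List ℕ)) : Prop := ∃ x : ℕ → K, valueK x p = 0

/-- `p` has degree at most `4` and has zeros over `ℝ`, over the field `ℚ_q` for every prime number
`q`, over every field of characteristic `0` which contains a square root of `2`, `17` or `34`, and
over every field of characteristic `0` in which the polynomial `P` has a zero. -/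
def PromP {n : ℕ} (P : MvPolynomial (Fin n) ℤ) (p : List (ℤ × List ℕ)) : Prop :=
  (∀ t ∈ p, t.2.length ≤ 4) ∧ ZeroIn ℝ p ∧ (∀ (q : ℕ) [Fact q.Prime], ZeroIn ℚ_[q] p) ∧
  (∀ (K : Type) [Field K] [CharZero K], (∃ x : K, x ^ 2 = 2 ∨ x ^ 2 = 17 ∨ x ^ 2 = 34) →
    ZeroIn K p) ∧
  ∀ (K : Type) [Field K] [CharZero K], (∃ x : Fin n → K, MvPolynomial.aeval x P = 0) → ZeroIn K p

theorem zeroIn_rat (p : List (ℤ × List ℕ)) : ZeroIn ℚ p ↔ RatZero p := Iff.rfl

section

variable {K : Type} [Field K]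

theorem valueK_cons (x : ℕ → K) (t : ℤ × List ℕ) (p : List (ℤ × List ℕ)) :
    valueK x (t :: p) = (t.1 : K) * (t.2.map x).prod + valueK x p := by
  simp [valueK]

theorem valueK_append (x : ℕ → K) (p q : List (ℤ × List ℕ)) :
    valueK x (p ++ q) = valueK x p + valueK x q := by
  simp [valueK]

theorem valueK_mul_aux (x : ℕ → K) (s : ℤ × List ℕ) (q : List (ℤ × List ℕ)) :
    valueK x (q.map fun t => (s.1 * t.1, s.2 ++ t.2)) =
      (s.1 : K) * (s.2.map x).prod * valueK x q := by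
  induction q with
  | nil => simp [valueK]
  | cons t q ih =>
    rw [List.map_cons, valueK_cons, ih, valueK_cons]
    simp only [List.map_append, List.prod_append]
    push_cast
    ring

theorem valueK_mulT (x : ℕ → K) (p q : List (ℤ × List ℕ)) :
    valueK x (mulT p q) = valueK x p * valueK x q := by
  induction p with
  | nil => simp [valueK, mulT]
  | cons s p ih =>
    have : mulT (s :: p) q = (q.map fun t => (s.1 * t.1, s.2 ++ t.2)) ++ mulT p q := rfl
    rw [this, valueK_append, ih, valueK_mul_aux, valueK_cons]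
    ring

theorem valueK_sqs (x : ℕ → K) (l : List (List (ℤ × List ℕ))) (h : ∀ p ∈ l, valueK x p = 0) :
    valueK x (sqs l) = 0 := by
  induction l with
  | nil => simp [sqs, valueK]
  | cons p l ih =>
    have e : sqs (p :: l) = mulT p p ++ sqs l := rfl
    rw [e, valueK_append, valueK_mulT, ih (fun q hq => h q (List.mem_cons_of_mem _ hq)),
      h p (List.mem_cons_self ..)]
    ring

theorem valueK_conT (x : ℕ → K) (c : ER.Con) (h : HoldsK x c) : valueK x (conT c) = 0 := by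
  cases c with
  | one i =>
    have h' : x i = 1 := h
    simp [valueK, conT, h']
  | add i j k =>
    have h' : x i + x j = x k := h
    simp [valueK, conT, ← h']
  | mul i j k =>
    have h' : x i * x j = x k := h
    simp [valueK, conT, ← h']

theorem zeroIn_quartT (S : List ER.Con) (h : KSat K S) : ZeroIn K (quartT S) := by
  obtain ⟨v, hv⟩ := h
  refine ⟨v, valueK_sqs v _ fun p hp => ?_⟩
  obtain ⟨c, hc, rfl⟩ := List.mem_map.1 hp
  exact valueK_conT v c (hv c hc)

end

/-- the general reduction -/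
theorem redP (hG : S_G) {n : ℕ} (P : MvPolynomial (Fin n) ℤ)
    (hP : ∀ x : Fin n → ℚ, MvPolynomial.aeval x P ≠ 0) :
    ∃ g : List ER.Con → List (ℤ × List ℕ), Poly g ∧ ∀ S : List ER.Con, PromP P (g S) ∧
      (QSat S ↔ ZeroIn ℚ (g S)) := by
  obtain ⟨T₁, hT₁⟩ := hG n P
  obtain ⟨T₂, hT₂, hT₂'⟩ := hE
  obtain ⟨d, -, hd⟩ := hD T₂
  obtain ⟨g, hg, hgS⟩ := hD (d T₁)
  refine ⟨fun S => quartT (g S), poly_quartT.comp hg, fun S => ?_⟩
  have hrep : ∀ (K : Type) [Field K] [CharZero K], KSat K T₁ ∨ KSat K T₂ →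
      ZeroIn K (quartT (g S)) := by
    intro K _ _ hK
    exact zeroIn_quartT _ ((hgS K S).2 (Or.inr ((hd K T₁).2 hK)))
  refine ⟨⟨fun t ht => length_quartT ht, ?_, ?_, ?_, ?_⟩, ?_⟩
  · exact hrep ℝ (Or.inr (hT₂' ℝ ⟨Real.sqrt 2, Or.inl (Real.sq_sqrt (by norm_num))⟩))
  · intro p _
    exact hrep ℚ_[p] (Or.inr (hT₂' ℚ_[p] (hF p)))
  · intro K _ _ hx
    exact hrep K (Or.inr (hT₂' K hx))
  · intro K _ _ hx
    exact hrep K (Or.inl ((hT₁ K).2 hx))
  · have hno : ¬ KSat ℚ (d T₁) := by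
      rw [hd ℚ]
      rintro (h | h)
      · obtain ⟨x, hx⟩ := (hT₁ ℚ).1 h
        exact hP x hx
      · exact hT₂ h
    rw [zeroIn_rat, ratZero_quartT, ← ksat_rat, ← ksat_rat, hgS ℚ, or_iff_left hno]

theorem partP_nexp (hG : S_G) {n : ℕ} (P : MvPolynomial (Fin n) ℤ)
    (hP : ∀ x : Fin n → ℚ, MvPolynomial.aeval x P ≠ 0) (L : Set (List Bool)) (hL : InNEXP L) :
    ∃ f : List Bool → List (ℤ × List ℕ), PolyTime (fun w => bits (f w)) ∧
      ∀ w, PromP P (f w) ∧ (w ∈ L ↔ ZeroIn ℚ (f w)) := by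
  obtain ⟨g, hg, hg'⟩ := redP hG P hP
  obtain ⟨f, hf, hfL⟩ := hardX_QSat L hL
  refine ⟨fun w => g (f w), PC.toPolyTime (PC.comp (eb := (bits : List ER.Con → List Bool))
    (g := g) (f := f) hg hf), fun w => ⟨(hg' (f w)).1, (hfL w).trans (hg' (f w)).2⟩⟩

theorem partP_fail (hG : S_G) {n : ℕ} (P : MvPolynomial (Fin n) ℤ)
    (hP : ∀ x : Fin n → ℚ, MvPolynomial.aeval x P ≠ 0) :
    ¬ InNP (lang (fun J => PromP P J ∧ ¬ ZeroIn ℚ J)) ∧
      ¬ InCoNP (lang (fun J => PromP P J ∧ ¬ ZeroIn ℚ J)) := by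
  have key : NEXPHard (lang (fun J => PromP P J ∧ ¬ ZeroIn ℚ J))ᶜ := by
    intro L hL
    obtain ⟨f, hf, hfw⟩ := partP_nexp hG P hP L hL
    refine ⟨fun w => bits (f w), hf, fun w => ?_⟩
    obtain ⟨h1, h3⟩ := hfw w
    rw [h3, Set.mem_compl_iff, bits_mem_lang]
    exact ⟨fun h h' => h'.2 h, fun h => by
      by_contra h'
      exact h ⟨h1, h'⟩⟩
  constructor
  · intro h
    exact key.not_inCoNP (by unfold InCoNP; rwa [compl_compl])
  · intro h
    exact key.not_inNP h

end Pool.Agent.W290.HP
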